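import Mathlib
import Pool.Agent.Helper43.Sub11
set_option autoImplicit false

/-!
# A connected graph whose mean subtree order is smaller than its mean connected set size

The graph: a cycle on 5000 vertices `0, 1, ..., 4999`, a triangle glued at vertex `500`, and `k`
pendant vertices at each of the vertices `0` and `1000`, with `k` large.
-/

namespace Pool.Agent.Results.MP_589357_co.Counterexample

open SimpleGraph Finset

/-- the number `s_k(G)` of subtrees of `G` (subgraphs that are trees) with exactly `k` vertices -/
noncomputable def numSubtrees {V : Type*} (G : SimpleGraph V) (k : ℕ) : ℕ :=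
  Nat.card {T : G.Subgraph // T.coe.IsTree ∧ T.verts.ncard = k}

/-- the mean subtree order `μ(G)` -/
noncomputable def meanSubtreeOrder {V : Type*} [Fintype V] (G : SimpleGraph V) : ℚ :=
  (∑ k ∈ Finset.Icc 1 (Fintype.card V), (k : ℚ) * numSubtrees G k) /
    ∑ k ∈ Finset.Icc 1 (Fintype.card V), (numSubtrees G k : ℚ)

open Classical in
/-- the connected sets of `G`: nonempty vertex sets inducing a connected subgraph -/
noncomputable def connectedSets {V : Type*} [Fintype V] (G : SimpleGraph V) :
    Finset (Finset V) :=
  Finset.univ.filter fun S => S.Nonempty ∧ (G.induce (S : Set V)).Connected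

/-- the average size `av(G)` of a connected set -/
noncomputable def av {V : Type*} [Fintype V] (G : SimpleGraph V) : ℚ :=
  (∑ S ∈ connectedSets G, (S.card : ℚ)) / (connectedSets G).card

open Pool.Agent.Helper43.Sub in
theorem mean_eq {V : Type*} [Fintype V] [DecidableEq V] (G : SimpleGraph V) :
    meanSubtreeOrder G = siz (tau G) (fun _ => 1) / cnt (tau G) (fun _ => 1) := by
  have h1 := sum_tau G (fun k => (k : ℚ))
  have h2 := sum_tau G (fun _ => (1 : ℚ))
  unfold meanSubtreeOrder siz cnt numSubtrees
  simp only [one_mul, mul_one] at h1 h2 ⊢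
  rw [h1, h2]
  congr 1
  exact Finset.sum_congr rfl fun k _ => mul_comm _ _

open Pool.Agent.Helper43.Sub in
theorem av_eq {V : Type*} [Fintype V] [DecidableEq V] (G : SimpleGraph V) :
    av G = siz (cc G) (fun _ => 1) / cnt (cc G) (fun _ => 1) := by
  classical
  have h0 : connectedSets G
      = Finset.univ.filter (fun S : Finset V => (G.induce (S : Set V)).Connected) := by
    unfold connectedSets
    ext S
    simp only [mem_filter, mem_univ, true_and, and_iff_right_iff_imp]
    intro h
    obtain ⟨x⟩ := h.nonempty
    exact ⟨x.1, x.2⟩
  have h1 := sum_cc G (fun k => (k : ℚ))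
  have h2 := sum_cc G (fun _ => (1 : ℚ))
  unfold av siz cnt
  simp only [one_mul, mul_one] at h1 h2 ⊢
  rw [h1, h2, Finset.sum_const, nsmul_eq_mul, mul_one, h0]

/-- **Disproof of `μ(G) ≥ av(G)`.** There is a finite connected graph whose mean subtree order is
strictly smaller than the average size of its connected sets. -/
theorem result : ∃ (V : Type) (_ : Fintype V) (G : SimpleGraph V),
    G.Connected ∧ meanSubtreeOrder G < av G := by
  obtain ⟨k, hk⟩ := Pool.Agent.Helper43.Sub.main
  refine ⟨_, inferInstance, Pool.Agent.Helper43.Sub.G3 k,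
    Pool.Agent.Helper43.Sub.G3_connected k, ?_⟩
  rw [mean_eq, av_eq]
  exact hk

end Pool.Agent.Results.MP_589357_co.Counterexample
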